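import Mathlib

set_option autoImplicit false

open MeasureTheory Set Filter Topology
open scoped ENNReal

namespace Pool.Agent.Y287.Marc

theorem inner1 {β γ a : ℝ} (hβγ : β < γ) (ha : 0 ≤ a) :
    ∫⁻ s in Ioi (0 : ℝ), ENNReal.ofReal (if s < a then s ^ (γ - 1 - β) * a ^ β else 0) ≤
      ENNReal.ofReal (a ^ γ / (γ - β)) := by
  rcases ha.eq_or_lt with rfl | ha
  · have : ∀ s ∈ Ioi (0 : ℝ), ENNReal.ofReal
        (if s < (0 : ℝ) then s ^ (γ - 1 - β) * (0 : ℝ) ^ β else 0) = 0 := by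
      intro s hs
      rw [if_neg (not_lt.2 (le_of_lt hs))]
      simp
    rw [setLIntegral_congr_fun measurableSet_Ioi this]
    simp
  have e1 : ∫⁻ s in Ioi (0 : ℝ), ENNReal.ofReal (if s < a then s ^ (γ - 1 - β) * a ^ β else 0) =
      ∫⁻ s in Ioo (0 : ℝ) a, ENNReal.ofReal (s ^ (γ - 1 - β) * a ^ β) := by
    rw [← lintegral_indicator measurableSet_Ioi, ← lintegral_indicator measurableSet_Ioo]
    congr 1
    ext s
    by_cases h0 : 0 < s
    · by_cases h1 : s < a
      · simp [indicator, h0, h1]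
      · simp [indicator, h0, h1]
    · simp [indicator, h0]
  rw [e1]
  have hint : IntegrableOn (fun s : ℝ => s ^ (γ - 1 - β) * a ^ β) (Ioo 0 a) := by
    have : IntervalIntegrable (fun s : ℝ => s ^ (γ - 1 - β)) volume 0 a :=
      intervalIntegral.intervalIntegrable_rpow' (by linarith)
    rw [intervalIntegrable_iff_integrableOn_Ioo_of_le ha.le] at this
    exact this.mul_const _
  rw [← ofReal_integral_eq_lintegral_ofReal hint]
  · apply ENNReal.ofReal_le_ofReal
    rw [integral_mul_const, ← integral_Ioc_eq_integral_Ioo,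
      ← intervalIntegral.integral_of_le ha.le, integral_rpow (Or.inl (by linarith))]
    have e2 : γ - 1 - β + 1 = γ - β := by ring
    rw [e2, Real.zero_rpow (by linarith), sub_zero, div_mul_eq_mul_div, ← Real.rpow_add ha]
    ring_nf
    exact le_rfl
  · rw [Filter.EventuallyLE, ae_restrict_iff' measurableSet_Ioo]
    refine Eventually.of_forall fun s hs => ?_
    have := hs.1
    simp only [Pi.zero_apply]
    positivity

theorem inner2 {α γ a : ℝ} (hα : 0 < α) (hγα : γ < α) (ha : 0 ≤ a) :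
    ∫⁻ s in Ioi (0 : ℝ), ENNReal.ofReal (if s < a then 0 else s ^ (γ - 1 - α) * a ^ α) ≤
      ENNReal.ofReal (a ^ γ / (α - γ)) := by
  rcases ha.eq_or_lt with rfl | ha
  · have : ∀ s ∈ Ioi (0 : ℝ), ENNReal.ofReal
        (if s < (0 : ℝ) then 0 else s ^ (γ - 1 - α) * (0 : ℝ) ^ α) = 0 := by
      intro s hs
      rw [if_neg (not_lt.2 (le_of_lt hs)), Real.zero_rpow hα.ne']
      simp
    rw [setLIntegral_congr_fun measurableSet_Ioi this]
    simp
  have e1 : ∫⁻ s in Ioi (0 : ℝ), ENNReal.ofReal (if s < a then 0 else s ^ (γ - 1 - α) * a ^ α) =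
      ∫⁻ s in Ici a, ENNReal.ofReal (s ^ (γ - 1 - α) * a ^ α) := by
    rw [← lintegral_indicator measurableSet_Ioi, ← lintegral_indicator measurableSet_Ici]
    congr 1
    ext s
    by_cases h0 : 0 < s
    · by_cases h1 : s < a
      · simp [indicator, h0, h1]
      · simp [indicator, h0, h1, not_lt.1 h1]
    · have : ¬ a ≤ s := fun h => h0 (ha.trans_le h)
      simp [indicator, h0, this]
  rw [e1, setLIntegral_congr Ioi_ae_eq_Ici.symm]
  have hint : IntegrableOn (fun s : ℝ => s ^ (γ - 1 - α) * a ^ α) (Ioi a) :=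
    (integrableOn_Ioi_rpow_of_lt (by linarith) ha).mul_const _
  rw [← ofReal_integral_eq_lintegral_ofReal hint]
  · apply ENNReal.ofReal_le_ofReal
    rw [integral_mul_const, integral_Ioi_rpow_of_lt (by linarith) ha]
    have e2 : γ - 1 - α + 1 = -(α - γ) := by ring
    have e3 : a ^ γ = a ^ (-(α - γ)) * a ^ α := by
      rw [← Real.rpow_add ha]
      ring_nf
    rw [e2, e3, neg_div_neg_eq, div_mul_eq_mul_div]
  · rw [Filter.EventuallyLE, ae_restrict_iff' measurableSet_Ioi]
    refine Eventually.of_forall fun s hs => ?_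
    have : 0 < s := ha.trans hs
    simp only [Pi.zero_apply]
    positivity

/-- A Marcinkiewicz type integration of a truncated weak estimate. -/
theorem marcinkiewicz {Ω : Type*} [MeasurableSpace Ω] (μ : Measure Ω) [SFinite μ]
    {f g : Ω → ℝ} (hf : Measurable f) (hg : Measurable g) (f0 : ∀ ω, 0 ≤ f ω)
    (g0 : ∀ ω, 0 ≤ g ω) {β γ α : ℝ} (hβ : 0 < β) (hβγ : β < γ) (hγα : γ < α)
    (h : ∀ s : ℝ, 0 < s → μ {ω | s < g ω} ≤
       ENNReal.ofReal (s ^ (-β)) * ∫⁻ ω, ENNReal.ofReal (if s < f ω then f ω ^ β else 0) ∂μ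
     + ENNReal.ofReal (s ^ (-α)) * ∫⁻ ω, ENNReal.ofReal (if s < f ω then 0 else f ω ^ α) ∂μ) :
    ∫⁻ ω, ENNReal.ofReal (g ω ^ γ) ∂μ ≤
      ENNReal.ofReal (γ / (γ - β) + γ / (α - γ)) * ∫⁻ ω, ENNReal.ofReal (f ω ^ γ) ∂μ := by
  have hγ : 0 < γ := hβ.trans hβγ
  have hα : 0 < α := hγ.trans hγα
  rw [lintegral_rpow_eq_lintegral_meas_lt_mul μ (Eventually.of_forall g0) hg.aemeasurable hγ]
  have hmF : Measurable fun p : ℝ × Ω => f p.2 := hf.comp measurable_snd
  have hset : MeasurableSet {p : ℝ × Ω | p.1 < f p.2} := measurableSet_lt measurable_fst hmF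
  have m1 : Measurable (Function.uncurry fun (s : ℝ) (ω : Ω) =>
      ENNReal.ofReal (if s < f ω then s ^ (γ - 1 - β) * f ω ^ β else 0)) := by
    refine ENNReal.measurable_ofReal.comp ?_
    refine Measurable.ite hset ?_ measurable_const
    exact (measurable_fst.pow_const _).mul (hmF.pow_const _)
  have m2 : Measurable (Function.uncurry fun (s : ℝ) (ω : Ω) =>
      ENNReal.ofReal (if s < f ω then 0 else s ^ (γ - 1 - α) * f ω ^ α)) := by
    refine ENNReal.measurable_ofReal.comp ?_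
    refine Measurable.ite hset measurable_const ?_
    exact (measurable_fst.pow_const _).mul (hmF.pow_const _)
  have key : ∫⁻ s in Ioi (0 : ℝ), μ {ω | s < g ω} * ENNReal.ofReal (s ^ (γ - 1)) ≤
      (∫⁻ s in Ioi (0 : ℝ), ∫⁻ ω,
        ENNReal.ofReal (if s < f ω then s ^ (γ - 1 - β) * f ω ^ β else 0) ∂μ) +
      ∫⁻ s in Ioi (0 : ℝ), ∫⁻ ω,
        ENNReal.ofReal (if s < f ω then 0 else s ^ (γ - 1 - α) * f ω ^ α) ∂μ := by
    have m3 : Measurable fun s : ℝ => ∫⁻ ω,
        ENNReal.ofReal (if s < f ω then s ^ (γ - 1 - β) * f ω ^ β else 0) ∂μ :=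
      m1.lintegral_prod_right'
    rw [← lintegral_add_left m3]
    refine setLIntegral_mono' measurableSet_Ioi fun s hs => ?_
    have hs0 : (0 : ℝ) < s := hs
    refine (mul_le_mul_left (h s hs0) _).trans (le_of_eq ?_)
    rw [add_mul]
    congr 1
    · rw [mul_right_comm, ← ENNReal.ofReal_mul (by positivity), ← Real.rpow_add hs0,
        ← lintegral_const_mul' _ _ ENNReal.ofReal_ne_top]
      refine lintegral_congr fun ω => ?_
      rw [← ENNReal.ofReal_mul (by positivity)]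
      congr 1
      have : -β + (γ - 1) = γ - 1 - β := by ring
      rw [this]
      split_ifs <;> simp
    · rw [mul_right_comm, ← ENNReal.ofReal_mul (by positivity), ← Real.rpow_add hs0,
        ← lintegral_const_mul' _ _ ENNReal.ofReal_ne_top]
      refine lintegral_congr fun ω => ?_
      rw [← ENNReal.ofReal_mul (by positivity)]
      congr 1
      have : -α + (γ - 1) = γ - 1 - α := by ring
      rw [this]
      split_ifs <;> simp
  have k1 : ∫⁻ s in Ioi (0 : ℝ), ∫⁻ ω,
        ENNReal.ofReal (if s < f ω then s ^ (γ - 1 - β) * f ω ^ β else 0) ∂μ ≤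
      ∫⁻ ω, ENNReal.ofReal (f ω ^ γ / (γ - β)) ∂μ := by
    rw [lintegral_lintegral_swap m1.aemeasurable]
    exact lintegral_mono fun ω => inner1 hβγ (f0 ω)
  have k2 : ∫⁻ s in Ioi (0 : ℝ), ∫⁻ ω,
        ENNReal.ofReal (if s < f ω then 0 else s ^ (γ - 1 - α) * f ω ^ α) ∂μ ≤
      ∫⁻ ω, ENNReal.ofReal (f ω ^ γ / (α - γ)) ∂μ := by
    rw [lintegral_lintegral_swap m2.aemeasurable]
    exact lintegral_mono fun ω => inner2 hα hγα (f0 ω)
  refine (mul_le_mul_right (key.trans (add_le_add k1 k2)) _).trans (le_of_eq ?_)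
  have e1 : ∀ c : ℝ, 0 < c → ∫⁻ ω, ENNReal.ofReal (f ω ^ γ / c) ∂μ =
      ENNReal.ofReal (1 / c) * ∫⁻ ω, ENNReal.ofReal (f ω ^ γ) ∂μ := by
    intro c hc
    rw [← lintegral_const_mul' _ _ ENNReal.ofReal_ne_top]
    refine lintegral_congr fun ω => ?_
    rw [← ENNReal.ofReal_mul (by positivity)]
    congr 1
    ring
  have p1 : 0 < γ - β := by linarith
  have p2 : 0 < α - γ := by linarith
  rw [e1 _ p1, e1 _ p2, ← add_mul, ← mul_assoc,
    ← ENNReal.ofReal_add (by positivity) (by positivity), ← ENNReal.ofReal_mul hγ.le]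
  congr 2
  ring

end Pool.Agent.Y287.Marc
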