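import Mathlib
import Pool.Agent.Y287.Marc

set_option autoImplicit false

open MeasureTheory Set Filter Topology
open scoped ENNReal

namespace Pool.Agent.Y287.LipInterp

variable {Ω : Type*} [MeasurableSpace Ω] {μ : Measure Ω} {E : Type*} [NormedAddCommGroup E]

theorem eLpNorm_rpow (h : Ω → E) {p : ℝ} (hp : 0 < p) :
    eLpNorm h (ENNReal.ofReal p) μ ^ p = ∫⁻ ω, ENNReal.ofReal (‖h ω‖ ^ p) ∂μ := by
  rw [eLpNorm_eq_lintegral_rpow_enorm_toReal (by simpa using hp) ENNReal.ofReal_ne_top,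
    ENNReal.toReal_ofReal hp.le, ← ENNReal.rpow_mul, one_div, inv_mul_cancel₀ hp.ne',
    ENNReal.rpow_one]
  refine lintegral_congr fun ω => ?_
  rw [← ofReal_norm, ENNReal.ofReal_rpow_of_nonneg (norm_nonneg _) hp.le]

theorem extend [IsFiniteMeasure μ] {p : ℝ≥0∞} [Fact (1 ≤ p)] (hp : p ≠ ∞) {q : ℝ≥0∞} {M : ℝ}
    (U : Lp E p μ → Lp E p μ)
    (h0 : ∀ x y : Lp E p μ, eLpNorm (⇑(U x) - ⇑(U y)) p μ ≤
      ENNReal.ofReal M * eLpNorm (⇑x - ⇑y) p μ)
    (h1 : ∀ x y : Lp E p μ, MemLp x q μ → MemLp y q μ → eLpNorm (⇑(U x) - ⇑(U y)) q μ ≤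
      ENNReal.ofReal M * eLpNorm (⇑x - ⇑y) q μ)
    (x y : Lp E p μ) (hd : MemLp (⇑x - ⇑y) q μ) :
    eLpNorm (⇑(U x) - ⇑(U y)) q μ ≤ ENNReal.ofReal M * eLpNorm (⇑x - ⇑y) q μ := by
  have hU : Continuous U := by
    have : LipschitzWith M.toNNReal U := by
      intro a b
      rw [Lp.edist_def, Lp.edist_def]
      exact h0 a b
    exact this.continuous
  obtain ⟨s, hs⟩ : ∃ s : ℕ → Lp.simpleFunc E p μ,
      Tendsto (fun n => (s n : Lp E p μ)) atTop (𝓝 x) := by
    have hx : x ∈ closure (Set.range ((↑) : Lp.simpleFunc E p μ → Lp E p μ)) :=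
      Lp.simpleFunc.denseRange hp x
    obtain ⟨u, hu, hux⟩ := mem_closure_iff_seq_limit.1 hx
    choose v hv using hu
    exact ⟨v, by simpa [hv] using hux⟩
  set d : Lp E p μ := x - y with hdef
  have hdm : MemLp d q μ := hd.ae_eq (Lp.coeFn_sub x y).symm
  have hsm : ∀ n, MemLp (s n : Lp E p μ) q μ := by
    intro n
    have := SimpleFunc.memLp_of_isFiniteMeasure (Lp.simpleFunc.toSimpleFunc (s n)) q μ
    exact this.ae_eq (Lp.simpleFunc.toSimpleFunc_eq_toFun (s n))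
  let y' : ℕ → Lp E p μ := fun n => (s n : Lp E p μ) - d
  have hy' : Tendsto y' atTop (𝓝 y) := by
    have : Tendsto y' atTop (𝓝 (x - d)) := hs.sub_const d
    simpa [hdef] using this
  have hym : ∀ n, MemLp (y' n) q μ := fun n =>
    ((hsm n).sub hdm).ae_eq (Lp.coeFn_sub _ _).symm
  have hw : Tendsto (fun n => U (s n) - U (y' n)) atTop (𝓝 (U x - U y)) :=
    ((hU.tendsto x).comp hs).sub ((hU.tendsto y).comp hy')
  obtain ⟨ns, -, hns⟩ := (tendstoInMeasure_of_tendsto_Lp hw).exists_seq_tendsto_ae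
  have e1 : eLpNorm (⇑x - ⇑y) q μ = eLpNorm d q μ := eLpNorm_congr_ae (Lp.coeFn_sub x y).symm
  have hb : ∀ n, eLpNorm (U (s n) - U (y' n) : Lp E p μ) q μ ≤
      ENNReal.ofReal M * eLpNorm d q μ := by
    intro n
    rw [eLpNorm_congr_ae (Lp.coeFn_sub (U (s n)) (U (y' n)))]
    refine (h1 _ _ (hsm n) (hym n)).trans (le_of_eq ?_)
    congr 1
    refine (eLpNorm_congr_ae (Lp.coeFn_sub _ _).symm).trans ?_
    have : (s n : Lp E p μ) - y' n = d := by simp [y']
    rw [this]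
  rw [e1, ← eLpNorm_congr_ae (Lp.coeFn_sub (U x) (U y))]
  exact Lp.eLpNorm_le_of_ae_tendsto (u := atTop)
    (f := fun i => ⇑(U (s (ns i)) - U (y' (ns i)) : Lp E p μ))
    (Eventually.of_forall fun n => hb (ns n)) (fun n => Lp.aestronglyMeasurable _) hns

theorem main [IsFiniteMeasure μ] {β γ α : ℝ} (hβ : 1 ≤ β) (hβγ : β < γ) (hγα : γ < α) {M : ℝ}
    (hM : 0 < M) (U : Lp E (ENNReal.ofReal β) μ → Lp E (ENNReal.ofReal β) μ)
    (h0 : ∀ x y : Lp E (ENNReal.ofReal β) μ, eLpNorm (⇑(U x) - ⇑(U y)) (ENNReal.ofReal β) μ ≤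
      ENNReal.ofReal M * eLpNorm (⇑x - ⇑y) (ENNReal.ofReal β) μ)
    (h1 : ∀ x y : Lp E (ENNReal.ofReal β) μ, MemLp x (ENNReal.ofReal α) μ →
      MemLp y (ENNReal.ofReal α) μ → eLpNorm (⇑(U x) - ⇑(U y)) (ENNReal.ofReal α) μ ≤
      ENNReal.ofReal M * eLpNorm (⇑x - ⇑y) (ENNReal.ofReal α) μ)
    (x y : Lp E (ENNReal.ofReal β) μ) :
    eLpNorm (⇑(U x) - ⇑(U y)) (ENNReal.ofReal γ) μ ≤
      ENNReal.ofReal (2 * (γ / (γ - β) + γ / (α - γ)) ^ (1 / γ) * M) *
        eLpNorm (⇑x - ⇑y) (ENNReal.ofReal γ) μ := by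
  have : Fact (1 ≤ ENNReal.ofReal β) := ⟨by simpa using ENNReal.ofReal_le_ofReal hβ⟩
  have hβ0 : 0 < β := by linarith
  have hγ0 : 0 < γ := by linarith
  have hα0 : 0 < α := by linarith
  have hγβ : 0 < γ - β := by linarith
  have hαγ : 0 < α - γ := by linarith
  set f : Ω → ℝ := fun ω => ‖x ω - y ω‖ with hf
  set g : Ω → ℝ := fun ω => ‖U x ω - U y ω‖ / (2 * M) with hg
  have fm : Measurable f :=
    ((Lp.stronglyMeasurable x).sub (Lp.stronglyMeasurable y)).norm.measurable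
  have gm : Measurable g :=
    (((Lp.stronglyMeasurable (U x)).sub (Lp.stronglyMeasurable (U y))).norm.measurable).div_const _
  have key := Marc.marcinkiewicz μ fm gm (fun ω => norm_nonneg _) (fun ω => by positivity)
    hβ0 hβγ hγα ?_
  · have e1 : ∫⁻ ω, ENNReal.ofReal (f ω ^ γ) ∂μ = eLpNorm (⇑x - ⇑y) (ENNReal.ofReal γ) μ ^ γ :=
      (eLpNorm_rpow _ hγ0).symm
    have e2 : ∫⁻ ω, ENNReal.ofReal (g ω ^ γ) ∂μ = ENNReal.ofReal ((1 / (2 * M)) ^ γ) *
        eLpNorm (⇑(U x) - ⇑(U y)) (ENNReal.ofReal γ) μ ^ γ := by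
      rw [eLpNorm_rpow _ hγ0, ← lintegral_const_mul' _ _ ENNReal.ofReal_ne_top]
      refine lintegral_congr fun ω => ?_
      rw [← ENNReal.ofReal_mul (by positivity)]
      congr 1
      rw [← Real.mul_rpow (by positivity) (by positivity)]
      congr 1
      simp only [hg, Pi.sub_apply]
      ring
    rw [e1, e2] at key
    have hC : 0 ≤ γ / (γ - β) + γ / (α - γ) := by positivity
    have e3 : (ENNReal.ofReal (2 * (γ / (γ - β) + γ / (α - γ)) ^ (1 / γ) * M)) ^ γ =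
        ENNReal.ofReal ((2 * M) ^ γ) * ENNReal.ofReal (γ / (γ - β) + γ / (α - γ)) := by
      rw [ENNReal.ofReal_rpow_of_nonneg (by positivity) hγ0.le,
        ← ENNReal.ofReal_mul (by positivity)]
      congr 1
      rw [show 2 * (γ / (γ - β) + γ / (α - γ)) ^ (1 / γ) * M =
        (2 * M) * (γ / (γ - β) + γ / (α - γ)) ^ (1 / γ) by ring,
        Real.mul_rpow (by positivity) (by positivity), ← Real.rpow_mul hC, one_div,
        inv_mul_cancel₀ hγ0.ne', Real.rpow_one]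
    rw [← ENNReal.rpow_le_rpow_iff hγ0, ENNReal.mul_rpow_of_nonneg _ _ hγ0.le, e3, mul_assoc]
    refine le_trans (le_of_eq ?_) (mul_le_mul_right key _)
    rw [← mul_assoc, ← ENNReal.ofReal_mul (by positivity),
      ← Real.mul_rpow (by positivity) (by positivity),
      mul_one_div_cancel (by positivity), Real.one_rpow, ENNReal.ofReal_one, one_mul]
  · intro s hs
    -- the small part of x - y
    set T : Ω → E := {ω | s < f ω}ᶜ.indicator (⇑x - ⇑y) with hT
    have hset : MeasurableSet {ω | s < f ω} := measurableSet_lt measurable_const fm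
    have Tm : StronglyMeasurable T :=
      ((Lp.stronglyMeasurable x).sub (Lp.stronglyMeasurable y)).indicator hset.compl
    have Tb : ∀ ω, ‖T ω‖ ≤ s := by
      intro ω
      by_cases h : s < f ω
      · simp [hT, h, hs.le]
      · have : T ω = x ω - y ω := by simp [hT, h]
        rw [this]
        exact not_lt.1 h
    have TLp : ∀ p : ℝ≥0∞, MemLp T p μ := fun p =>
      MemLp.of_bound Tm.aestronglyMeasurable s (Eventually.of_forall Tb)
    let t : Lp E (ENNReal.ofReal β) μ := (TLp _).toLp T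
    have ht : t =ᵐ[μ] T := (TLp _).coeFn_toLp
    let z : Lp E (ENNReal.ofReal β) μ := y + t
    have hz : ⇑z =ᵐ[μ] fun ω => y ω + T ω := by
      filter_upwards [Lp.coeFn_add y t, ht] with ω h1 h2
      simp only [z, h1, Pi.add_apply, h2]
    have hzy : (⇑z - ⇑y) =ᵐ[μ] T := by
      filter_upwards [hz] with ω h
      simp [h]
    have hxz : (⇑x - ⇑z) =ᵐ[μ] {ω | s < f ω}.indicator (⇑x - ⇑y) := by
      filter_upwards [hz] with ω h
      by_cases h' : s < f ω
      · simp [h, hT, h']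
      · simp [h, hT, h']
    have b1 := h0 x z
    have b2 := extend (q := ENNReal.ofReal α) ENNReal.ofReal_ne_top U h0 h1 z y
      ((TLp _).ae_eq hzy.symm)
    have hε : ENNReal.ofReal (s * M) ≠ 0 := by
      have : 0 < s * M := by positivity
      simpa using this
    -- Chebyshev
    have cheb : ∀ (p : ℝ), 0 < p → ∀ (F : Ω → E) (G : Ω → E), AEStronglyMeasurable F μ →
        eLpNorm F (ENNReal.ofReal p) μ ≤ ENNReal.ofReal M * eLpNorm G (ENNReal.ofReal p) μ →
        μ {ω | ENNReal.ofReal (s * M) ≤ ‖F ω‖ₑ} ≤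
          ENNReal.ofReal (s ^ (-p)) * ∫⁻ ω, ENNReal.ofReal (‖G ω‖ ^ p) ∂μ := by
      intro p hp F G hF hFG
      have c1 := meas_ge_le_mul_pow_eLpNorm_enorm μ (p := ENNReal.ofReal p) (by simpa using hp)
        ENNReal.ofReal_ne_top hF hε (fun h => absurd h ENNReal.ofReal_ne_top)
      rw [ENNReal.toReal_ofReal hp.le] at c1
      refine c1.trans ?_
      refine (mul_le_mul_right (ENNReal.rpow_le_rpow hFG hp.le) _).trans (le_of_eq ?_)
      rw [ENNReal.mul_rpow_of_nonneg _ _ hp.le, eLpNorm_rpow _ hp, ← mul_assoc]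
      congr 1
      rw [← ENNReal.mul_rpow_of_nonneg _ _ hp.le, ENNReal.ofReal_mul hs.le,
        ENNReal.mul_inv (Or.inr ENNReal.ofReal_ne_top) (Or.inl ENNReal.ofReal_ne_top), mul_assoc,
        ENNReal.inv_mul_cancel (by simpa using hM) ENNReal.ofReal_ne_top, mul_one,
        Real.rpow_neg hs.le, ENNReal.ofReal_inv_of_pos (by positivity),
        ENNReal.inv_rpow, ENNReal.ofReal_rpow_of_pos hs]
    have c1 := cheb β hβ0 _ _ ((Lp.aestronglyMeasurable (U x)).sub
      (Lp.aestronglyMeasurable (U z))) b1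
    have c2 := cheb α hα0 _ _ ((Lp.aestronglyMeasurable (U z)).sub
      (Lp.aestronglyMeasurable (U y))) b2
    have i1 : ∫⁻ ω, ENNReal.ofReal (‖(⇑x - ⇑z) ω‖ ^ β) ∂μ =
        ∫⁻ ω, ENNReal.ofReal (if s < f ω then f ω ^ β else 0) ∂μ := by
      refine lintegral_congr_ae ?_
      filter_upwards [hxz] with ω h
      rw [h]
      by_cases h' : s < f ω
      · rw [Set.indicator_of_mem (show ω ∈ {ω | s < f ω} from h'), if_pos h']
        rfl
      · rw [Set.indicator_of_notMem (show ω ∉ {ω | s < f ω} from h'), if_neg h', norm_zero,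
          Real.zero_rpow hβ0.ne']
    have i2 : ∫⁻ ω, ENNReal.ofReal (‖(⇑z - ⇑y) ω‖ ^ α) ∂μ =
        ∫⁻ ω, ENNReal.ofReal (if s < f ω then 0 else f ω ^ α) ∂μ := by
      refine lintegral_congr_ae ?_
      filter_upwards [hzy] with ω h
      rw [h]
      by_cases h' : s < f ω
      · have : T ω = 0 :=
          Set.indicator_of_notMem (show ω ∉ {ω | s < f ω}ᶜ from fun hh => hh h') _
        rw [this, if_pos h', norm_zero, Real.zero_rpow hα0.ne']
      · have : T ω = (⇑x - ⇑y) ω :=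
          Set.indicator_of_mem (show ω ∈ {ω | s < f ω}ᶜ from h') _
        rw [this, if_neg h']
        rfl
    rw [i1] at c1
    rw [i2] at c2
    refine le_trans ?_ (add_le_add c1 c2)
    refine le_trans (measure_mono ?_) (measure_union_le _ _)
    intro ω hω
    simp only [Set.mem_ofPred_eq, hg] at hω
    rw [lt_div_iff₀ (by positivity)] at hω
    by_contra hcon
    simp only [mem_union, Set.mem_ofPred_eq, not_or, not_le] at hcon
    obtain ⟨q1, q2⟩ := hcon
    rw [← ofReal_norm, ENNReal.ofReal_lt_ofReal_iff (by positivity)] at q1 q2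
    have q3 : ‖U x ω - U y ω‖ ≤ ‖(⇑(U x) - ⇑(U z)) ω‖ + ‖(⇑(U z) - ⇑(U y)) ω‖ := by
      simp only [Pi.sub_apply]
      exact norm_sub_le_norm_sub_add_norm_sub _ _ _
    linarith

end Pool.Agent.Y287.LipInterp
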